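import Mathlib

namespace Pool.Agent.Sahi

open Finset

variable {ι : Type*} [DecidableEq ι] [Fintype ι]

open Classical in
/-- the set partitions of `Q` -/
noncomputable def parts (Q : Finset ι) : Finset (Finset (Finset ι)) :=
  univ.filter fun P => (∀ B ∈ P, B.Nonempty ∧ B ⊆ Q) ∧ ∀ i ∈ Q, ∃! B, B ∈ P ∧ i ∈ B

lemma mem_parts {Q : Finset ι} {P : Finset (Finset ι)} :
    P ∈ parts Q ↔ (∀ B ∈ P, B.Nonempty ∧ B ⊆ Q) ∧ ∀ i ∈ Q, ∃! B, B ∈ P ∧ i ∈ B := by
  simp only [parts, mem_filter, mem_univ, true_and]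

/-- sum over set partitions of products of block weights -/
noncomputable def Ex (w : Finset ι → ℝ) (Q : Finset ι) : ℝ := ∑ P ∈ parts Q, ∏ B ∈ P, w B

lemma parts_empty : parts (∅ : Finset ι) = {∅} := by
  ext P
  rw [mem_parts, mem_singleton]
  constructor
  · rintro ⟨h, _⟩
    rw [eq_empty_iff_forall_notMem]
    intro B hB
    obtain ⟨h1, h2⟩ := h B hB
    exact h1.ne_empty (subset_empty.mp h2)
  · rintro rfl
    exact ⟨fun B hB => absurd hB (notMem_empty _), fun i hi => absurd hi (notMem_empty _)⟩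

lemma Ex_empty (w : Finset ι → ℝ) : Ex w ∅ = 1 := by
  rw [Ex, parts_empty, sum_singleton, prod_empty]

lemma Ex_rec (w : Finset ι → ℝ) {Q : Finset ι} {y : ι} (hy : y ∈ Q) :
    Ex w Q = ∑ T ∈ Q.powerset.filter (fun T => y ∈ T), w T * Ex w (Q \ T) := by
  classical
  simp only [Ex, mul_sum]
  rw [sum_sigma']
  symm
  -- facts on `T`, `P'`
  have key : ∀ (T : Finset ι) (P' : Finset (Finset ι)), T ⊆ Q → y ∈ T → P' ∈ parts (Q \ T) →
      T ∉ P' ∧ insert T P' ∈ parts Q := by
    intro T P' hT hyT hP'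
    rw [mem_parts] at hP'
    have hTP : T ∉ P' := by
      intro h
      have := (hP'.1 T h).2 hyT
      rw [mem_sdiff] at this
      exact this.2 hyT
    refine ⟨hTP, mem_parts.mpr ⟨fun B hB => ?_, fun i hi => ?_⟩⟩
    · rcases mem_insert.mp hB with rfl | hB
      · exact ⟨⟨y, hyT⟩, hT⟩
      · exact ⟨(hP'.1 B hB).1, (hP'.1 B hB).2.trans sdiff_subset⟩
    · by_cases hiT : i ∈ T
      · refine ⟨T, ⟨mem_insert_self _ _, hiT⟩, ?_⟩
        rintro B ⟨hB, hiB⟩
        rcases mem_insert.mp hB with h | hB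
        · exact h
        · have := (hP'.1 B hB).2 hiB
          rw [mem_sdiff] at this
          exact absurd hiT this.2
      · obtain ⟨B, ⟨hB, hiB⟩, huniq⟩ := hP'.2 i (mem_sdiff.mpr ⟨hi, hiT⟩)
        refine ⟨B, ⟨mem_insert_of_mem hB, hiB⟩, ?_⟩
        rintro B' ⟨hB', hiB'⟩
        rcases mem_insert.mp hB' with rfl | hB'
        · exact absurd hiB' hiT
        · exact huniq B' ⟨hB', hiB'⟩
  refine sum_bij (fun x _ => insert x.1 x.2) ?_ ?_ ?_ ?_
  · rintro ⟨T, P'⟩ hx
    rw [mem_sigma, mem_filter, mem_powerset] at hx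
    exact (key T P' hx.1.1 hx.1.2 hx.2).2
  · rintro ⟨T, P⟩ hx ⟨T2, P2⟩ hx2 h
    rw [mem_sigma, mem_filter, mem_powerset] at hx hx2
    simp only at h hx hx2
    obtain ⟨h1, h2⟩ := key T P hx.1.1 hx.1.2 hx.2
    obtain ⟨h3, h4⟩ := key T2 P2 hx2.1.1 hx2.1.2 hx2.2
    have hTT : T = T2 := by
      obtain ⟨B, _, huniq⟩ := (mem_parts.mp h2).2 y hy
      rw [huniq T ⟨mem_insert_self _ _, hx.1.2⟩,
        huniq T2 ⟨by rw [h]; exact mem_insert_self _ _, hx2.1.2⟩]
    subst hTT
    have hPP : P = P2 := by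
      rw [← erase_insert h1, ← erase_insert h3, h]
    rw [hPP]
  · intro P hP
    obtain ⟨T, ⟨hT, hyT⟩, huniq⟩ := (mem_parts.mp hP).2 y hy
    have hP1 := (mem_parts.mp hP).1
    have hP2 := (mem_parts.mp hP).2
    have hdisj : ∀ B ∈ P, ∀ i, i ∈ B → i ∈ T → B = T := by
      intro B hB i hiB hiT
      obtain ⟨C, _, hC⟩ := hP2 i ((hP1 B hB).2 hiB)
      rw [hC B ⟨hB, hiB⟩, hC T ⟨hT, hiT⟩]
    refine ⟨⟨T, P.erase T⟩, ?_, insert_erase hT⟩
    rw [mem_sigma, mem_filter, mem_powerset]
    refine ⟨⟨(hP1 T hT).2, hyT⟩, mem_parts.mpr ⟨fun B hB => ?_, fun i hi => ?_⟩⟩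
    · obtain ⟨hBT, hBP⟩ := mem_erase.mp hB
      refine ⟨(hP1 B hBP).1, fun i hi => mem_sdiff.mpr ⟨(hP1 B hBP).2 hi, fun hiT => ?_⟩⟩
      exact hBT (hdisj B hBP i hi hiT)
    · obtain ⟨hiQ, hiT⟩ := mem_sdiff.mp hi
      obtain ⟨B, ⟨hB, hiB⟩, hu⟩ := hP2 i hiQ
      refine ⟨B, ⟨mem_erase.mpr ⟨?_, hB⟩, hiB⟩, ?_⟩
      · rintro rfl; exact hiT hiB
      · rintro B' ⟨hB', hiB'⟩
        exact hu B' ⟨(mem_erase.mp hB').2, hiB'⟩
  · rintro ⟨T, P'⟩ hx
    rw [mem_sigma, mem_filter, mem_powerset] at hx
    rw [prod_insert (key T P' hx.1.1 hx.1.2 hx.2).1]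

lemma Ex_add (w w' : Finset ι → ℝ) (Q : Finset ι) :
    Ex (fun B => w B + w' B) Q = ∑ R ∈ Q.powerset, Ex w R * Ex w' (Q \ R) := by
  classical
  induction Q using Finset.strongInduction with
  | H Q ih =>
    rcases Q.eq_empty_or_nonempty with rfl | ⟨y, hy⟩
    · rw [powerset_empty, sum_singleton, Ex_empty, Ex_empty, Finset.sdiff_empty, Ex_empty,
        one_mul]
    · rw [Ex_rec _ hy]
      have hstep : ∀ T ∈ Q.powerset.filter (fun T => y ∈ T),
          (w T + w' T) * Ex (fun B => w B + w' B) (Q \ T) =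
            (∑ R ∈ (Q \ T).powerset, w T * Ex w R * Ex w' ((Q \ T) \ R)) +
            ∑ R ∈ (Q \ T).powerset, w' T * Ex w R * Ex w' ((Q \ T) \ R) := by
        intro T hT
        rw [mem_filter, mem_powerset] at hT
        have hlt : Q \ T ⊂ Q := by
          refine ⟨sdiff_subset, fun h => ?_⟩
          have := h hy
          rw [mem_sdiff] at this
          exact this.2 hT.2
        rw [ih _ hlt, ← sum_add_distrib, mul_sum]
        refine sum_congr rfl fun R _ => ?_
        ring
      rw [sum_congr rfl hstep, sum_add_distrib]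
      rw [← sum_filter_add_sum_filter_not Q.powerset (fun R => y ∈ R)
        (fun R => Ex w R * Ex w' (Q \ R))]
      congr 1
      · -- `y` in `R`
        have h1 : ∀ R ∈ Q.powerset.filter (fun R => y ∈ R), Ex w R * Ex w' (Q \ R) =
            ∑ T ∈ R.powerset.filter (fun T => y ∈ T), w T * Ex w (R \ T) * Ex w' (Q \ R) := by
          intro R hR
          rw [mem_filter] at hR
          rw [Ex_rec w hR.2, sum_mul]
        rw [sum_congr rfl h1]
        rw [sum_comm' (s := Q.powerset.filter (fun R => y ∈ R))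
          (t := fun R => R.powerset.filter (fun T => y ∈ T))
          (t' := Q.powerset.filter (fun T => y ∈ T))
          (s' := fun T => Q.powerset.filter (fun R => T ⊆ R)) (by
            intro R T
            simp only [mem_filter, mem_powerset]
            constructor
            · rintro ⟨⟨h2, h3⟩, h4, h5⟩
              exact ⟨⟨h2, h4⟩, h4.trans h2, h5⟩
            · rintro ⟨⟨h2, h4⟩, _, h5⟩
              exact ⟨⟨h2, h4 h5⟩, h4, h5⟩)]
        refine sum_congr rfl fun T hT => ?_
        rw [mem_filter, mem_powerset] at hT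
        refine sum_nbij' (fun R => T ∪ R) (fun R => R \ T) ?_ ?_ ?_ ?_ ?_
        · intro R hR
          rw [mem_powerset] at hR
          rw [mem_filter, mem_powerset]
          exact ⟨union_subset hT.1 (hR.trans sdiff_subset), subset_union_left⟩
        · intro R hR
          rw [mem_filter, mem_powerset] at hR
          rw [mem_powerset]
          exact sdiff_subset_sdiff hR.1 le_rfl
        · intro R hR
          rw [mem_powerset] at hR
          ext i
          simp only [mem_sdiff, mem_union]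
          constructor
          · rintro ⟨h | h, h2⟩
            · exact absurd h h2
            · exact h
          · intro h
            exact ⟨Or.inr h, (mem_sdiff.mp (hR h)).2⟩
        · intro R hR
          rw [mem_filter, mem_powerset] at hR
          exact union_sdiff_of_subset hR.2
        · intro R hR
          rw [mem_powerset] at hR
          have h2 : (T ∪ R) \ T = R := by
            ext i
            simp only [mem_sdiff, mem_union]
            constructor
            · rintro ⟨h | h, h2⟩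
              · exact absurd h h2
              · exact h
            · intro h
              exact ⟨Or.inr h, (mem_sdiff.mp (hR h)).2⟩
          have h3 : (Q \ T) \ R = Q \ (T ∪ R) := by
            ext i
            simp only [mem_sdiff, mem_union, not_or]
            tauto
          rw [h2, h3]
      · -- `y` not in `R`
        have h1 : ∀ R ∈ Q.powerset.filter (fun R => ¬ y ∈ R), Ex w R * Ex w' (Q \ R) =
            ∑ T ∈ (Q \ R).powerset.filter (fun T => y ∈ T),
              w' T * Ex w R * Ex w' ((Q \ R) \ T) := by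
          intro R hR
          rw [mem_filter] at hR
          rw [Ex_rec w' (mem_sdiff.mpr ⟨hy, hR.2⟩), mul_sum]
          refine sum_congr rfl fun T _ => ?_
          ring
        rw [sum_congr rfl h1]
        symm
        rw [sum_comm' (s := Q.powerset.filter (fun R => ¬ y ∈ R))
          (t := fun R => (Q \ R).powerset.filter (fun T => y ∈ T))
          (t' := Q.powerset.filter (fun T => y ∈ T))
          (s' := fun T => (Q \ T).powerset) (by
            intro R T
            simp only [mem_filter, mem_powerset]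
            constructor
            · rintro ⟨⟨h2, h3⟩, h4, h5⟩
              refine ⟨fun i hi => mem_sdiff.mpr ⟨h2 hi, fun hiT => ?_⟩, h4.trans sdiff_subset, h5⟩
              exact (mem_sdiff.mp (h4 hiT)).2 hi
            · rintro ⟨h2, h3, h4⟩
              refine ⟨⟨h2.trans sdiff_subset, fun hyR => (mem_sdiff.mp (h2 hyR)).2 h4⟩,
                fun i hi => mem_sdiff.mpr ⟨h3 hi, fun hiR => (mem_sdiff.mp (h2 hiR)).2 hi⟩, h4⟩)]
        refine sum_congr rfl fun T _ => sum_congr rfl fun R _ => ?_
        rw [sdiff_right_comm]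

lemma Ex_nonneg {w : Finset ι → ℝ} (hw : ∀ B, 0 ≤ w B) (Q : Finset ι) : 0 ≤ Ex w Q :=
  sum_nonneg fun _ _ => prod_nonneg fun _ _ => hw _

/-- block weight attached to moments -/
noncomputable def gw (a : Finset ι → ℝ) (B : Finset ι) : ℝ := -(((B.card - 1).factorial : ℝ) * a B)

lemma H_eq {a : Finset ι → ℝ} (ha : a ∅ = 1) (Q : Finset ι) :
    ∑ T ∈ Q.powerset, ((T.card).factorial : ℝ) * a T * Ex (gw a) (Q \ T) =
      (1 - (Q.card : ℝ)) * Ex (gw a) Q := by
  classical
  have h1 : ∀ T ∈ Q.powerset, ((T.card).factorial : ℝ) * a T * Ex (gw a) (Q \ T) =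
      (if T = ∅ then Ex (gw a) Q else 0) - ∑ y ∈ T, gw a T * Ex (gw a) (Q \ T) := by
    intro T _
    rcases T.eq_empty_or_nonempty with rfl | hT
    · rw [if_pos rfl, card_empty, sum_empty, ha, sdiff_empty]; simp
    · rw [if_neg hT.ne_empty, sum_const, nsmul_eq_mul, gw]
      have h2 : ((T.card).factorial : ℝ) = T.card * ((T.card - 1).factorial : ℝ) := by
        have := Nat.mul_factorial_pred (card_pos.mpr hT).ne'
        exact_mod_cast this.symm
      rw [h2]; ring
  rw [sum_congr rfl h1, sum_sub_distrib, sum_ite_eq' Q.powerset ∅, if_pos (empty_mem_powerset _)]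
  have h3 : ∑ T ∈ Q.powerset, ∑ y ∈ T, gw a T * Ex (gw a) (Q \ T) =
      ∑ y ∈ Q, Ex (gw a) Q := by
    rw [sum_comm' (s := Q.powerset) (t := fun T => T) (t' := Q)
      (s' := fun y => Q.powerset.filter (fun T => y ∈ T)) (by
        intro T y
        simp only [mem_filter, mem_powerset]
        constructor
        · rintro ⟨h2, h3⟩; exact ⟨⟨h2, h3⟩, h2 h3⟩
        · rintro ⟨⟨h2, h3⟩, _⟩; exact ⟨h2, h3⟩)]
    exact sum_congr rfl fun y hy => (Ex_rec _ hy).symm
  rw [h3, sum_const, nsmul_eq_mul]
  ring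

lemma E_insert (a : Finset ι → ℝ) {S : Finset ι} {x : ι} (hx : x ∉ S) :
    -Ex (gw a) (insert x S) =
      ∑ T ∈ S.powerset, ((T.card).factorial : ℝ) * a (insert x T) * Ex (gw a) (S \ T) := by
  classical
  rw [Ex_rec _ (mem_insert_self x S), ← sum_neg_distrib]
  refine sum_nbij' (fun T => T.erase x) (fun T => insert x T) ?_ ?_ ?_ ?_ ?_
  · intro T hT
    rw [mem_filter, mem_powerset] at hT
    rw [mem_powerset]
    intro i hi
    obtain ⟨h1, h2⟩ := mem_erase.mp hi
    exact (mem_insert.mp (hT.1 h2)).resolve_left h1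
  · intro T hT
    rw [mem_powerset] at hT
    rw [mem_filter, mem_powerset]
    exact ⟨insert_subset_insert _ hT, mem_insert_self _ _⟩
  · intro T hT
    rw [mem_filter] at hT
    exact insert_erase hT.2
  · intro T hT
    rw [mem_powerset] at hT
    exact erase_insert fun h => hx (hT h)
  · intro T hT
    rw [mem_filter, mem_powerset] at hT
    have h1 : insert x (T.erase x) = T := insert_erase hT.2
    have h2 : (insert x S) \ T = S \ T.erase x := by
      ext i
      simp only [mem_sdiff, mem_insert, mem_erase, not_and]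
      constructor
      · rintro ⟨h3 | h3, h4⟩
        · subst h3; exact absurd hT.2 h4
        · exact ⟨h3, fun h => by
            intro h5; exact h4 h5⟩
      · rintro ⟨h3, h4⟩
        have h5 : i ≠ x := by rintro rfl; exact hx h3
        exact ⟨Or.inr h3, h4 h5⟩
    rw [h1, h2, card_erase_of_mem hT.2, gw]
    ring

end Pool.Agent.Sahi
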