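import Mathlib
import Pool.Agent.Sahi.Exp

namespace Pool.Agent.Sahi

open Finset

variable {ι : Type*} [DecidableEq ι] [Fintype ι] {m : ℕ}

/-- moments -/
noncomputable def mom (μ : Finset (Fin m) → ℝ) (f : ι → Finset (Fin m) → ℝ) (B : Finset ι) : ℝ :=
  ∑ A, μ A * ∏ i ∈ B, f i A

/-- FKG probability measures -/
def IsFKG (μ : Finset (Fin m) → ℝ) : Prop :=
  (∀ A, 0 ≤ μ A) ∧ ∑ A, μ A = 1 ∧ ∀ A B, μ A * μ B ≤ μ (A ∩ B) * μ (A ∪ B)

lemma cov {μ : Finset (Fin m) → ℝ} (hμ : IsFKG μ) {F G : Finset (Fin m) → ℝ}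
    (hF0 : ∀ A, 0 ≤ F A) (hG0 : ∀ A, 0 ≤ G A) (hF : Monotone F) (hG : Monotone G) :
    (∑ A, μ A * F A) * ∑ A, μ A * G A ≤ ∑ A, μ A * (F A * G A) := by
  have := fkg (μ := μ) (f := F) (g := G) hμ.1 hF0 hG0 hF hG hμ.2.2
  rwa [hμ.2.1, one_mul] at this

lemma prod_mono {f : ι → Finset (Fin m) → ℝ} (hf0 : ∀ i A, 0 ≤ f i A)
    (hfm : ∀ i, Monotone (f i)) (B : Finset ι) : Monotone fun A => ∏ i ∈ B, f i A :=
  fun A A' h => prod_le_prod (fun i _ => hf0 i A) fun i _ => hfm i h

lemma prod_nn {f : ι → Finset (Fin m) → ℝ} (hf0 : ∀ i A, 0 ≤ f i A) (B : Finset ι) (A) :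
    0 ≤ ∏ i ∈ B, f i A := prod_nonneg fun i _ => hf0 i A

/-- indicator of a principal filter -/
def ind (C A : Finset (Fin m)) : ℝ := if C ⊆ A then 1 else 0

lemma ind_nonneg (C A : Finset (Fin m)) : 0 ≤ ind C A := by
  unfold ind; split_ifs <;> norm_num

lemma ind_mono (C : Finset (Fin m)) : Monotone (ind C) := by
  intro A A' h
  unfold ind
  by_cases h1 : C ⊆ A
  · rw [if_pos h1, if_pos (h1.trans h)]
  · rw [if_neg h1]; split_ifs <;> norm_num

lemma K_nonneg {μ : Finset (Fin m) → ℝ} (hμ : IsFKG μ) {f : ι → Finset (Fin m) → ℝ}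
    (hf0 : ∀ i A, 0 ≤ f i A) (hfm : ∀ i, Monotone (f i)) (S : Finset ι) (C : Finset (Fin m))
    (ih : ∀ Q ⊆ S, Q.Nonempty → ∀ μ' : Finset (Fin m) → ℝ, IsFKG μ' →
      0 ≤ -Ex (gw (mom μ' f)) Q) :
    0 ≤ ∑ T ∈ S.powerset, ((T.card).factorial : ℝ) *
      (∑ A, μ A * ind C A * ∏ i ∈ T, f i A) * Ex (gw (mom μ f)) (S \ T) := by
  classical
  set M : ℝ := ∑ A, μ A * ind C A with hM
  have hM0 : 0 ≤ M := sum_nonneg fun A _ => mul_nonneg (hμ.1 A) (ind_nonneg C A)
  rcases hM0.eq_or_lt with h0 | hpos
  · -- the conditioning event is null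
    have hz : ∀ A, μ A * ind C A = 0 := by
      have := (sum_eq_zero_iff_of_nonneg fun A _ => mul_nonneg (hμ.1 A) (ind_nonneg C A)).mp
        h0.symm
      exact fun A => this A (mem_univ A)
    refine le_of_eq (sum_eq_zero fun T _ => ?_).symm
    have : ∑ A, μ A * ind C A * ∏ i ∈ T, f i A = 0 :=
      sum_eq_zero fun A _ => by rw [hz A, zero_mul]
    rw [this, mul_zero, zero_mul]
  · set μ' : Finset (Fin m) → ℝ := fun A => μ A * ind C A / M with hμ'
    have hFKG' : IsFKG μ' := by
      refine ⟨fun A => div_nonneg (mul_nonneg (hμ.1 A) (ind_nonneg C A)) hM0, ?_, fun A B => ?_⟩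
      · rw [hμ', ← sum_div, ← hM, div_self hpos.ne']
      · show μ A * ind C A / M * (μ B * ind C B / M) ≤
          μ (A ∩ B) * ind C (A ∩ B) / M * (μ (A ∪ B) * ind C (A ∪ B) / M)
        have h1 : ind C A * ind C B ≤ ind C (A ∩ B) * ind C (A ∪ B) := by
          unfold ind
          by_cases hA : C ⊆ A
          · by_cases hB : C ⊆ B
            · rw [if_pos hA, if_pos hB, if_pos (subset_inter hA hB),
                if_pos (hA.trans subset_union_left)]
            · rw [if_neg hB, mul_zero]
              split_ifs <;> norm_num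
          · rw [if_neg hA, zero_mul]
            split_ifs <;> norm_num
        have h2 := hμ.2.2 A B
        have h3 : μ A * μ B * (ind C A * ind C B) ≤
            μ (A ∩ B) * μ (A ∪ B) * (ind C (A ∩ B) * ind C (A ∪ B)) :=
          mul_le_mul h2 h1 (mul_nonneg (ind_nonneg _ _) (ind_nonneg _ _))
            (mul_nonneg (hμ.1 _) (hμ.1 _))
        calc μ A * ind C A / M * (μ B * ind C B / M) =
            (μ A * μ B * (ind C A * ind C B)) / (M * M) := by field_simp
          _ ≤ (μ (A ∩ B) * μ (A ∪ B) * (ind C (A ∩ B) * ind C (A ∪ B))) / (M * M) := by gcongr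
          _ = _ := by field_simp
    have hmom' : ∀ T : Finset ι, ∑ A, μ A * ind C A * ∏ i ∈ T, f i A = M * mom μ' f T := by
      intro T
      rw [mom, mul_sum]
      refine sum_congr rfl fun A _ => ?_
      simp only [hμ']
      field_simp
    set w : Finset ι → ℝ := fun B => gw (mom μ f) B - gw (mom μ' f) B with hw
    have hw0 : ∀ B, 0 ≤ w B := by
      intro B
      have h1 : mom μ f B ≤ mom μ' f B := by
        have h2 := cov hμ (F := ind C) (G := fun A => ∏ i ∈ B, f i A) (ind_nonneg C)
          (prod_nn hf0 B) (ind_mono C) (prod_mono hf0 hfm B)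
        have h3 : ∑ A, μ A * (ind C A * ∏ i ∈ B, f i A) = M * mom μ' f B := by
          rw [← hmom' B]
          exact sum_congr rfl fun A _ => by ring
        rw [h3] at h2
        exact le_of_mul_le_mul_left h2 hpos
      show 0 ≤ gw (mom μ f) B - gw (mom μ' f) B
      rw [gw, gw]
      have h4 : (0 : ℝ) ≤ ((B.card - 1).factorial : ℝ) := Nat.cast_nonneg _
      nlinarith [mul_le_mul_of_nonneg_left h1 h4]
    have hG : ∀ Q, Ex (gw (mom μ f)) Q =
        ∑ R ∈ Q.powerset, Ex w R * Ex (gw (mom μ' f)) (Q \ R) := by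
      intro Q
      rw [← Ex_add]
      congr 1
      funext B
      simp only [hw]; ring
    have hone : mom μ' f (∅ : Finset ι) = 1 := by
      rw [mom]
      simp only [prod_empty, mul_one]
      exact hFKG'.2.1
    have hterm : ∀ T ∈ S.powerset, ((T.card).factorial : ℝ) *
        (∑ A, μ A * ind C A * ∏ i ∈ T, f i A) * Ex (gw (mom μ f)) (S \ T) =
        ∑ R ∈ (S \ T).powerset, M * Ex w R *
          (((T.card).factorial : ℝ) * mom μ' f T * Ex (gw (mom μ' f)) ((S \ T) \ R)) := by
      intro T _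
      rw [hmom', hG, mul_sum]
      refine sum_congr rfl fun R _ => ?_
      ring
    rw [sum_congr rfl hterm, sum_comm' (s := S.powerset) (t := fun T => (S \ T).powerset)
      (t' := S.powerset) (s' := fun R => (S \ R).powerset) (by
        intro T R
        simp only [mem_powerset]
        constructor
        · rintro ⟨h1, h2⟩
          refine ⟨fun i hi => mem_sdiff.mpr ⟨h1 hi, fun hiR => ?_⟩, h2.trans sdiff_subset⟩
          exact (mem_sdiff.mp (h2 hiR)).2 hi
        · rintro ⟨h1, h2⟩
          refine ⟨h1.trans sdiff_subset, fun i hi => mem_sdiff.mpr ⟨h2 hi, fun hiT => ?_⟩⟩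
          exact (mem_sdiff.mp (h1 hiT)).2 hi)]
    refine sum_nonneg fun R hR => ?_
    rw [mem_powerset] at hR
    have h5 : ∑ T ∈ (S \ R).powerset, M * Ex w R *
        (((T.card).factorial : ℝ) * mom μ' f T * Ex (gw (mom μ' f)) ((S \ T) \ R)) =
        M * Ex w R * ((1 - ((S \ R).card : ℝ)) * Ex (gw (mom μ' f)) (S \ R)) := by
      rw [← H_eq hone, mul_sum]
      refine sum_congr rfl fun T _ => ?_
      rw [sdiff_right_comm]
    rw [h5]
    refine mul_nonneg (mul_nonneg hM0 (Ex_nonneg hw0 R)) ?_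
    rcases (S \ R).eq_empty_or_nonempty with he | hne
    · rw [he, card_empty, Ex_empty]; norm_num
    · have h6 := ih (S \ R) sdiff_subset hne μ' hFKG'
      have h7 : (1 : ℝ) ≤ ((S \ R).card : ℝ) := by exact_mod_cast card_pos.mpr hne
      nlinarith

theorem main_ind {f : ι → Finset (Fin m) → ℝ} (hf0 : ∀ i A, 0 ≤ f i A)
    (hfm : ∀ i, Monotone (f i)) (Cone : ι → Prop) [DecidablePred Cone]
    (hcone : ∀ i, Cone i → ∃ c : Finset (Fin m) → ℝ, (∀ T, 0 ≤ c T) ∧
      ∀ A, f i A = ∑ T, if T ⊆ A then c T else 0) (Q : Finset ι) :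
    Q.Nonempty → (Q.filter fun i => ¬ Cone i).card ≤ 2 →
    ∀ μ : Finset (Fin m) → ℝ, IsFKG μ → 0 ≤ -Ex (gw (mom μ f)) Q := by
  classical
  induction Q using Finset.strongInduction with
  | H Q ih =>
    intro hne hcard μ hμ
    by_cases hex : ∃ x ∈ Q, Cone x
    · obtain ⟨x, hx, hCx⟩ := hex
      obtain ⟨c, hc0, hc⟩ := hcone x hCx
      set S := Q.erase x with hS
      have hxS : x ∉ S := notMem_erase x Q
      have hQ : insert x S = Q := insert_erase hx
      rw [← hQ, E_insert _ hxS]
      have hmom : ∀ T ∈ S.powerset, mom μ f (insert x T) =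
          ∑ C, c C * ∑ A, μ A * ind C A * ∏ i ∈ T, f i A := by
        intro T hT
        have hxT : x ∉ T := fun h => hxS ((mem_powerset.mp hT) h)
        rw [mom]
        simp only [mul_sum]
        rw [sum_comm]
        refine sum_congr rfl fun A _ => ?_
        rw [prod_insert hxT, hc A, sum_mul, mul_sum]
        refine sum_congr rfl fun C _ => ?_
        unfold ind
        split_ifs <;> ring
      have hterm : ∀ T ∈ S.powerset,
          ((T.card).factorial : ℝ) * mom μ f (insert x T) * Ex (gw (mom μ f)) (S \ T) =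
          ∑ C, c C * (((T.card).factorial : ℝ) * (∑ A, μ A * ind C A * ∏ i ∈ T, f i A) *
            Ex (gw (mom μ f)) (S \ T)) := by
        intro T hT
        rw [hmom T hT, mul_sum, sum_mul]
        refine sum_congr rfl fun C _ => ?_
        ring
      rw [sum_congr rfl hterm, sum_comm]
      refine sum_nonneg fun C _ => ?_
      rw [← mul_sum]
      refine mul_nonneg (hc0 C) (K_nonneg hμ hf0 hfm S C ?_)
      intro Q' hQ' hne' μ' hμ'
      have hss : Q' ⊂ Q := by
        refine ⟨hQ'.trans (erase_subset x Q), fun h => ?_⟩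
        exact hxS (hQ' (h hx))
      refine ih Q' hss hne' ?_ μ' hμ'
      exact (card_le_card (filter_subset_filter _ hss.1)).trans hcard
    · push Not at hex
      have hcard' : Q.card ≤ 2 := by
        rwa [filter_true_of_mem fun i hi => hex i hi] at hcard
      have hpos := card_pos.mpr hne
      have hsing : ∀ (a : Finset ι → ℝ) (y : ι), Ex (gw a) {y} = -a {y} := by
        intro a y
        have h1 := E_insert a (S := ∅) (x := y) (notMem_empty y)
        rw [powerset_empty, sum_singleton, card_empty, Finset.sdiff_empty, Ex_empty,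
          insert_empty] at h1
        simp only [Nat.factorial_zero, Nat.cast_one, one_mul, mul_one] at h1
        linarith
      rcases Nat.lt_or_ge Q.card 2 with h2 | h2
      · obtain ⟨x, rfl⟩ := card_eq_one.mp (show Q.card = 1 by omega)
        rw [hsing, neg_neg]
        exact sum_nonneg fun A _ => mul_nonneg (hμ.1 A) (prod_nn hf0 _ A)
      · obtain ⟨x, y, hxy, rfl⟩ := card_eq_two.mp (show Q.card = 2 by omega)
        have hx : x ∉ ({y} : Finset ι) := by simpa using hxy
        have h3 := E_insert (mom μ f) hx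
        have hps : ({y} : Finset ι).powerset = {∅, {y}} := by
          ext T
          rw [mem_powerset, subset_singleton_iff, mem_insert, mem_singleton]
        rw [hps, sum_pair (by simp : (∅ : Finset ι) ≠ {y})] at h3
        rw [card_empty, card_singleton, Finset.sdiff_empty, Finset.sdiff_self, Ex_empty,
          insert_empty, hsing] at h3
        simp only [Nat.factorial_zero, Nat.factorial_one, Nat.cast_one, one_mul, mul_one] at h3
        have h4 := cov hμ (F := f x) (G := f y) (hf0 x) (hf0 y) (hfm x) (hfm y)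
        have h5 : mom μ f {x} = ∑ A, μ A * f x A := by
          rw [mom]; exact sum_congr rfl fun A _ => by rw [prod_singleton]
        have h6 : mom μ f {y} = ∑ A, μ A * f y A := by
          rw [mom]; exact sum_congr rfl fun A _ => by rw [prod_singleton]
        have h7 : mom μ f {x, y} = ∑ A, μ A * (f x A * f y A) := by
          rw [mom]; exact sum_congr rfl fun A _ => by rw [prod_pair hxy]
        rw [h3, h5, h6, h7]
        linarith

end Pool.Agent.Sahi
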